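import Pool.Agent.helper82.UN.SpecP

set_option autoImplicit false

open NumberField Complex MeasureTheory nonZeroDivisors

namespace Pool.Agent.UN

/-- the weight -/
noncomputable def PGC_w (y : ℝ) (ξ : ℂ) (z : ℂ) : ℂ :=
  (Real.exp (-(Real.pi * 2 * y * ‖z‖ ^ 2)) : ℂ) * ee (-(2 * (ξ * z).re))

theorem PGC_norm_ee (x : ℝ) : ‖ee x‖ = 1 := by
  unfold ee
  exact Complex.norm_exp_ofReal_mul_I _

theorem PGC_norm_w (y : ℝ) (ξ : ℂ) (z : ℂ) : ‖PGC_w y ξ z‖ = Real.exp (-(Real.pi * 2 * y * ‖z‖ ^ 2)) := by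
  unfold PGC_w
  rw [norm_mul, PGC_norm_ee, mul_one, Complex.norm_real, Real.norm_eq_abs, abs_of_pos (Real.exp_pos _)]

theorem PGC_cont_ee : Continuous ee := by
  unfold ee
  fun_prop

theorem PGC_cont_w (y : ℝ) (ξ : ℂ) : Continuous (PGC_w y ξ) := by
  unfold PGC_w
  refine Continuous.mul ?_ ?_
  · fun_prop
  · refine PGC_cont_ee.comp ?_
    exact (continuous_const.mul (Complex.continuous_re.comp (continuous_const.mul continuous_id))).neg

theorem PGC_gauss (h : PGZ_stmt) (y : ℝ) (hy : 0 < y) :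
    Integrable (fun z : ℂ => Real.exp (-(Real.pi * y * ‖z‖ ^ 2))) := by
  have h1 := (h (y / 2) 0 0 (by positivity)).1.norm
  refine h1.congr (Filter.Eventually.of_forall fun z => ?_)
  show ‖Complex.exp (0 * z) * (Real.exp (-(Real.pi * 2 * (y / 2) * ‖z‖ ^ 2)) : ℂ) * ee (-(2 * ((0 : ℂ) * z).re))‖ = _
  rw [norm_mul, norm_mul, PGC_norm_ee, mul_one, Complex.norm_real, Real.norm_eq_abs, abs_of_pos (Real.exp_pos _)]
  rw [zero_mul, Complex.exp_zero, norm_one, one_mul]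
  congr 1
  ring

theorem PGC_bound (h : PGZ_stmt) (y : ℝ) (hy : 0 < y) (n : ℕ) (c : ℝ) :
    Integrable (fun z : ℂ => ‖z‖ ^ n * Real.exp (c * ‖z‖) * Real.exp (-(Real.pi * 2 * y * ‖z‖ ^ 2))) := by
  have h1 := (PGC_gauss h y hy).const_mul ((n.factorial : ℝ) * Real.exp ((c + 1) ^ 2 / (4 * Real.pi * y)))
  refine h1.mono' ?_ ?_
  · refine Continuous.aestronglyMeasurable ?_
    fun_prop
  · refine Filter.Eventually.of_forall fun z => ?_
    have hz := norm_nonneg z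
    rw [Real.norm_eq_abs, abs_of_nonneg (by positivity)]
    have h2 : ‖z‖ ^ n ≤ (n.factorial : ℝ) * Real.exp ‖z‖ := by
      have h3 := Real.pow_div_factorial_le_exp ‖z‖ hz n
      rwa [div_le_iff₀ (by positivity), mul_comm] at h3
    have hpi := Real.pi_pos
    calc ‖z‖ ^ n * Real.exp (c * ‖z‖) * Real.exp (-(Real.pi * 2 * y * ‖z‖ ^ 2))
        ≤ ((n.factorial : ℝ) * Real.exp ‖z‖) * Real.exp (c * ‖z‖) * Real.exp (-(Real.pi * 2 * y * ‖z‖ ^ 2)) := by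
          gcongr
      _ = (n.factorial : ℝ) * Real.exp (‖z‖ + c * ‖z‖ + -(Real.pi * 2 * y * ‖z‖ ^ 2)) := by
          rw [Real.exp_add, Real.exp_add]
          ring
      _ ≤ (n.factorial : ℝ) * Real.exp ((c + 1) ^ 2 / (4 * Real.pi * y) + -(Real.pi * y * ‖z‖ ^ 2)) := by
          refine mul_le_mul_of_nonneg_left (Real.exp_le_exp.2 ?_) (Nat.cast_nonneg _)
          have h4 : (c + 1) ^ 2 / (4 * Real.pi * y) + -(Real.pi * y * ‖z‖ ^ 2) - (‖z‖ + c * ‖z‖ + -(Real.pi * 2 * y * ‖z‖ ^ 2)) =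
              (c + 1 - 2 * Real.pi * y * ‖z‖) ^ 2 / (4 * Real.pi * y) := by
            field_simp
            ring
          have h5 : 0 ≤ (c + 1 - 2 * Real.pi * y * ‖z‖) ^ 2 / (4 * Real.pi * y) := by positivity
          linarith
      _ = (n.factorial : ℝ) * Real.exp ((c + 1) ^ 2 / (4 * Real.pi * y)) * Real.exp (-(Real.pi * y * ‖z‖ ^ 2)) := by
          rw [Real.exp_add]
          ring

/-- the integrals with parameter -/
noncomputable def PGC_G (y : ℝ) (ξ : ℂ) (m : ℕ) (l : ℂ) : ℂ := ∫ z : ℂ, z ^ m * Complex.exp (l * z) * PGC_w y ξ z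

theorem PGC_norm_exp (l z : ℂ) : ‖Complex.exp (l * z)‖ ≤ Real.exp (‖l‖ * ‖z‖) := by
  rw [Complex.norm_exp]
  refine Real.exp_le_exp.2 ?_
  exact (Complex.re_le_norm _).trans (le_of_eq (norm_mul _ _))

theorem PGC_deriv (h : PGZ_stmt) (y : ℝ) (hy : 0 < y) (ξ : ℂ) (m : ℕ) (l : ℂ) :
    HasDerivAt (PGC_G y ξ m) (PGC_G y ξ (m + 1) l) l := by
  have hc : ∀ (n : ℕ) (l' : ℂ), Continuous (fun z : ℂ => z ^ n * Complex.exp (l' * z) * PGC_w y ξ z) := by
    intro n l'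
    have := PGC_cont_w y ξ
    fun_prop
  have key := hasDerivAt_integral_of_dominated_loc_of_deriv_le (μ := (volume : Measure ℂ))
    (F := fun (l' : ℂ) (z : ℂ) => z ^ m * Complex.exp (l' * z) * PGC_w y ξ z) (x₀ := l)
    (s := Metric.ball l 1) (F' := fun (l' : ℂ) (z : ℂ) => z ^ (m + 1) * Complex.exp (l' * z) * PGC_w y ξ z)
    (bound := fun z : ℂ => ‖z‖ ^ (m + 1) * Real.exp ((‖l‖ + 1) * ‖z‖) * Real.exp (-(Real.pi * 2 * y * ‖z‖ ^ 2)))
    (Metric.ball_mem_nhds l one_pos)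
    (Filter.Eventually.of_forall fun l' => (hc m l').aestronglyMeasurable)
    ?_ (hc (m + 1) l).aestronglyMeasurable ?_ (PGC_bound h y hy (m + 1) (‖l‖ + 1)) ?_
  · exact key.2
  · refine (PGC_bound h y hy m ‖l‖).mono' (hc m l).aestronglyMeasurable (Filter.Eventually.of_forall fun z => ?_)
    rw [norm_mul, norm_mul, norm_pow, PGC_norm_w]
    gcongr
    exact PGC_norm_exp l z
  · refine Filter.Eventually.of_forall fun z l' hl' => ?_
    rw [norm_mul, norm_mul, norm_pow, PGC_norm_w]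
    gcongr
    refine (PGC_norm_exp l' z).trans ?_
    gcongr
    have h1 : ‖l'‖ ≤ ‖l‖ + ‖l' - l‖ := by
      calc ‖l'‖ = ‖l + (l' - l)‖ := by ring_nf
        _ ≤ _ := norm_add_le _ _
    have h2 : ‖l' - l‖ < 1 := by
      rw [← dist_eq_norm]
      exact hl'
    linarith
  · refine Filter.Eventually.of_forall fun z l' _ => ?_
    have h1 : HasDerivAt (fun x : ℂ => Complex.exp (x * z)) (Complex.exp (l' * z) * z) l' := by
      have h2 : HasDerivAt (fun x : ℂ => x * z) z l' := by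
        simpa using (hasDerivAt_id l').mul_const z
      exact h2.cexp
    have h3 := (h1.const_mul (z ^ m)).mul_const (PGC_w y ξ z)
    refine h3.congr_deriv ?_
    rw [pow_succ]
    ring

theorem PGC_closed (h : PGZ_stmt) (y : ℝ) (hy : 0 < y) (ξ : ℂ) (m : ℕ) : ∀ l : ℂ,
    PGC_G y ξ m l = 1 / (2 * y) * (Real.exp (-(Real.pi * 2 * (1 / y) * ‖ξ‖ ^ 2)) : ℂ) *
      (-I * (starRingEnd ℂ) ξ / y) ^ m * Complex.exp (-I * l * (starRingEnd ℂ) ξ / y) := by
  induction m with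
  | zero =>
    intro l
    have h1 := (h y ξ l hy).2
    unfold PGC_G PGC_w
    have h2 : ∀ z : ℂ, z ^ 0 * Complex.exp (l * z) * ((Real.exp (-(Real.pi * 2 * y * ‖z‖ ^ 2)) : ℂ) * ee (-(2 * (ξ * z).re))) =
        Complex.exp (l * z) * (Real.exp (-(Real.pi * 2 * y * ‖z‖ ^ 2)) : ℂ) * ee (-(2 * (ξ * z).re)) := by
      intro z
      rw [pow_zero]
      ring
    simp only [h2]
    rw [h1]
    ring
  | succ m ih =>
    intro l
    have h1 := PGC_deriv h y hy ξ m l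
    have h2 : PGC_G y ξ m = fun l => 1 / (2 * y) * (Real.exp (-(Real.pi * 2 * (1 / y) * ‖ξ‖ ^ 2)) : ℂ) *
      (-I * (starRingEnd ℂ) ξ / y) ^ m * Complex.exp (-I * l * (starRingEnd ℂ) ξ / y) := funext ih
    rw [h2] at h1
    have h3 : HasDerivAt (fun l : ℂ => -I * l * (starRingEnd ℂ) ξ / y) (-I * (starRingEnd ℂ) ξ / y) l := by
      have h4 : HasDerivAt (fun l : ℂ => l * (-I * (starRingEnd ℂ) ξ / y)) (-I * (starRingEnd ℂ) ξ / y) l := by
        simpa using (hasDerivAt_id l).mul_const (-I * (starRingEnd ℂ) ξ / y)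
      refine h4.congr_of_eventuallyEq (Filter.Eventually.of_forall fun l' => ?_)
      show -I * l' * (starRingEnd ℂ) ξ / y = l' * (-I * (starRingEnd ℂ) ξ / y)
      ring
    have h5 := h3.cexp.const_mul (1 / (2 * y) * (Real.exp (-(Real.pi * 2 * (1 / y) * ‖ξ‖ ^ 2)) : ℂ) *
      (-I * (starRingEnd ℂ) ξ / y) ^ m)
    rw [h1.unique h5, pow_succ]
    ring

theorem PGC (hPGZ : PGZ_stmt) : PGC_stmt := by
  intro y ξ m hy
  have h1 := PGC_closed hPGZ y hy ξ m 0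
  unfold PGC_G PGC_w at h1
  have h2 : ∀ z : ℂ, z ^ m * Complex.exp (0 * z) * ((Real.exp (-(Real.pi * 2 * y * ‖z‖ ^ 2)) : ℂ) * ee (-(2 * (ξ * z).re))) =
      z ^ m * (Real.exp (-(Real.pi * 2 * y * ‖z‖ ^ 2)) : ℂ) * ee (-(2 * (ξ * z).re)) := by
    intro z
    rw [zero_mul, Complex.exp_zero]
    ring
  simp only [h2] at h1
  rw [h1]
  have h3 : ((y ^ (-((1 : ℝ) + m)) : ℝ) : ℂ) = (y : ℂ)⁻¹ * ((y : ℂ)⁻¹) ^ m := by
    rw [Real.rpow_neg hy.le, Real.rpow_add hy, Real.rpow_one, Real.rpow_natCast]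
    push_cast
    rw [mul_inv, inv_pow]
  rw [h3]
  have h4 : Complex.exp (-I * 0 * (starRingEnd ℂ) ξ / y) = 1 := by
    simp
  rw [h4, div_eq_mul_inv (-I * (starRingEnd ℂ) ξ) (y : ℂ), mul_pow, mul_pow]
  have hy' : (y : ℂ) ≠ 0 := Complex.ofReal_ne_zero.2 hy.ne'
  have h5 : (1 : ℂ) / (2 * (y : ℂ)) = (2 : ℂ)⁻¹ * (y : ℂ)⁻¹ := by
    rw [one_div, mul_inv]
  rw [h5]
  ring

end Pool.Agent.UN
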